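import Pool.Agent.N659.HB.Stm10

/-! Project SN (helper659), part TRU: the class UL for the truncated Gaussian law, by helper289. -/

set_option autoImplicit false

namespace Pool.Agent.N289.SN.Tru

open MeasureTheory Filter Pool.Agent.W792.LL Pool.Agent.W792.WA ProbabilityTheory Pool.Agent.N659.HB
open scoped Topology ENNReal

lemma im_le {ζ : ℂ} (t : ℝ) : ζ.im ≤ ‖(t : ℂ) - ζ‖ := by
  have h := Complex.abs_im_le_norm ((t : ℂ) - ζ)
  rw [Complex.sub_im, Complex.ofReal_im, zero_sub, abs_neg] at h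
  exact (le_abs_self _).trans h

lemma sub_ne {ζ : ℂ} (h : 0 < ζ.im) (t : ℝ) : (t : ℂ) - ζ ≠ 0 := by
  intro h0
  have h1 := im_le (ζ := ζ) t
  rw [h0, norm_zero] at h1
  linarith

lemma meas (ζ : ℂ) : Measurable fun t : ℝ => (t : ℂ) - ζ := Complex.measurable_ofReal.sub_const ζ

lemma integ {E : Type*} [NormedAddCommGroup E] {μ : Measure ℝ} [IsFiniteMeasure μ] {F : ℝ → E}
    (hF : AEStronglyMeasurable F μ) (B : ℝ) (hB : ∀ t, ‖F t‖ ≤ B) : Integrable F μ :=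
  Integrable.of_bound hF B (ae_of_all _ hB)

lemma upper {μ ν : Measure ℝ} (h : μ ≤ (2 : ℝ≥0∞) • ν) {f : ℝ → ℝ} (h0 : ∀ t, 0 ≤ f t)
    (hf : Integrable f ν) : ∫ t, f t ∂μ ≤ 2 * ∫ t, f t ∂ν := by
  have h1 : Integrable f ((2 : ℝ≥0∞) • ν) := hf.smul_measure (by simp)
  have h2 := integral_mono_measure h (ae_of_all _ h0) h1
  rw [integral_smul_measure] at h2
  simpa using h2

/-- the inverse is bounded -/
lemma inv_bd {ζ : ℂ} {y : ℝ} (hy : 0 < y) (h : y ≤ ζ.im) (t : ℝ) : 1 / ‖(t : ℂ) - ζ‖ ≤ 1 / y :=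
  one_div_le_one_div_of_le hy (h.trans (im_le t))

lemma int_inv {μ : Measure ℝ} [IsFiniteMeasure μ] {ζ : ℂ} (h : 0 < ζ.im) :
    Integrable (fun t : ℝ => 1 / ((t : ℂ) - ζ)) μ := by
  refine integ ((measurable_const.div (meas ζ)).aestronglyMeasurable) (1 / ζ.im) (fun t => ?_)
  rw [norm_div, norm_one]
  exact inv_bd h le_rfl t

lemma int_sq {μ : Measure ℝ} [IsFiniteMeasure μ] {ζ : ℂ} (h : 0 < ζ.im) :
    Integrable (fun t : ℝ => 1 / ‖(t : ℂ) - ζ‖ ^ 2) μ := by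
  refine integ ((measurable_const.div ((meas ζ).norm.pow_const 2)).aestronglyMeasurable) ((1 / ζ.im) ^ 2) (fun t => ?_)
  rw [Real.norm_eq_abs, abs_of_nonneg (by positivity)]
  have h1 := inv_bd h le_rfl t
  calc 1 / ‖(t : ℂ) - ζ‖ ^ 2 = (1 / ‖(t : ℂ) - ζ‖) ^ 2 := by rw [div_pow, one_pow]
    _ ≤ (1 / ζ.im) ^ 2 := pow_le_pow_left₀ (by positivity) h1 2

lemma int_one {μ : Measure ℝ} [IsFiniteMeasure μ] {ζ : ℂ} (h : 0 < ζ.im) :
    Integrable (fun t : ℝ => 1 / ‖(t : ℂ) - ζ‖) μ := by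
  refine integ ((measurable_const.div (meas ζ).norm).aestronglyMeasurable) (1 / ζ.im) (fun t => ?_)
  rw [Real.norm_eq_abs, abs_of_nonneg (by positivity)]
  exact inv_bd h le_rfl t

lemma int_half {μ : Measure ℝ} [IsFiniteMeasure μ] {ζ : ℂ} (h : 0 < ζ.im) :
    Integrable (fun t : ℝ => (1 / ‖(t : ℂ) - ζ‖) ^ (1 / 2 : ℝ)) μ := by
  refine integ (((measurable_const.div (meas ζ).norm).pow_const _).aestronglyMeasurable) ((1 / ζ.im) ^ (1 / 2 : ℝ))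
    (fun t => ?_)
  rw [Real.norm_eq_abs, abs_of_nonneg (by positivity)]
  exact Real.rpow_le_rpow (by positivity) (inv_bd h le_rfl t) (by norm_num)

/-- difference of two transforms -/
lemma hm_sub {μ : Measure ℝ} [IsFiniteMeasure μ] {ζ ζ' : ℂ} (h : 0 < ζ.im) (h' : 0 < ζ'.im) :
    hm μ ζ - hm μ ζ' = (ζ - ζ') * ∫ t, 1 / (((t : ℂ) - ζ) * ((t : ℂ) - ζ')) ∂μ := by
  unfold hm
  rw [← integral_sub (int_inv h) (int_inv h'), ← integral_const_mul]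
  congr 1
  funext t
  have h1 := sub_ne h t
  have h2 := sub_ne h' t
  field_simp
  ring

/-- continuity on the interval -/
lemma contf {w : ℝ} {α β c : ℂ} (hne : ∀ t : ℝ, |t| ≤ w → α * t + β ≠ 0) :
    ContinuousOn (fun t : ℝ => ‖c / (α * (t : ℂ) + β)‖ ^ (1 / 2 : ℝ)) (Set.Icc (-w) w) := by
  apply ContinuousOn.rpow_const
  · apply ContinuousOn.norm
    apply ContinuousOn.div continuousOn_const
    · exact (continuous_const.mul Complex.continuous_ofReal |>.add continuous_const).continuousOn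
    · intro t ht
      exact hne t (abs_le.2 ht)
  · intro t _
    right
    norm_num

lemma contk (κ : ℂ) (w : ℝ) :
    ContinuousOn (fun t : ℝ => ‖(t : ℂ) - κ‖ ^ (1 / 2 : ℝ)) (Set.Icc (-w) w) := by
  apply ContinuousOn.rpow_const
  · exact (Complex.continuous_ofReal.sub continuous_const).norm.continuousOn
  · intro t _
    right
    norm_num

/-- the size of the window -/
lemma window {s y₀ Cw : ℝ} (hs : 0 < s) (hCw : 18 * s ≤ Cw) (hy : 0 < y₀) (hy1 : y₀ ≤ 1 / 2) :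
    8 * Real.exp (-((Cw * y₀ ^ (-(1 / 32) : ℝ)) ^ 2 / (2 * s ^ 2))) ≤ (y₀ ^ 5) ^ 2 := by
  obtain ⟨L, hL⟩ : ∃ L, L = -Real.log y₀ := ⟨_, rfl⟩
  have hy' : y₀ = Real.exp (-L) := by
    rw [hL, neg_neg, Real.exp_log hy]
  have hL0 : 0 ≤ L := by
    rw [hL]
    have := Real.log_nonpos hy.le (by linarith)
    linarith
  have h1 : (y₀ ^ (-(1 / 32) : ℝ)) ^ 2 = Real.exp (L / 16) := by
    rw [hy', ← Real.exp_mul, ← Real.exp_nat_mul]
    congr 1
    push_cast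
    ring
  have h2 : 1 + L / 16 ≤ Real.exp (L / 16) := by
    have := Real.add_one_le_exp (L / 16)
    linarith
  have h3 : 3 + 10 * L ≤ (Cw * y₀ ^ (-(1 / 32) : ℝ)) ^ 2 / (2 * s ^ 2) := by
    rw [le_div_iff₀ (by positivity), mul_pow, h1]
    have h4 : (18 * s) ^ 2 ≤ Cw ^ 2 := pow_le_pow_left₀ (by positivity) hCw 2
    calc (3 + 10 * L) * (2 * s ^ 2) ≤ (18 * s) ^ 2 * (1 + L / 16) := by
          have : 0 ≤ s ^ 2 * L := by positivity
          have : 0 ≤ s ^ 2 := by positivity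
          nlinarith
      _ ≤ Cw ^ 2 * Real.exp (L / 16) := mul_le_mul h4 h2 (by positivity) (by positivity)
  have h5 : Real.exp (-((Cw * y₀ ^ (-(1 / 32) : ℝ)) ^ 2 / (2 * s ^ 2))) ≤ Real.exp (-(3 + 10 * L)) :=
    Real.exp_le_exp.2 (by linarith)
  have h6 : (8 : ℝ) ≤ Real.exp 3 := by
    have h7 := Real.exp_one_gt_d9
    have h8 : Real.exp 3 = Real.exp 1 ^ 3 := by
      rw [← Real.exp_nat_mul]
      norm_num
    rw [h8]
    calc (8 : ℝ) = 2 ^ 3 := by norm_num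
      _ ≤ Real.exp 1 ^ 3 := pow_le_pow_left₀ (by norm_num) (by linarith) 3
  have h9 : (y₀ ^ 5) ^ 2 = Real.exp (-(10 * L)) := by
    rw [hy', ← pow_mul, ← Real.exp_nat_mul]
    congr 1
    push_cast
    ring
  rw [h9]
  calc 8 * Real.exp (-((Cw * y₀ ^ (-(1 / 32) : ℝ)) ^ 2 / (2 * s ^ 2)))
      ≤ Real.exp 3 * Real.exp (-(3 + 10 * L)) := mul_le_mul h6 h5 (Real.exp_pos _).le (Real.exp_pos _).le
    _ = Real.exp (-(10 * L)) := by
        rw [← Real.exp_add]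
        congr 1
        ring

theorem main : S_GA → S_GF → S_GD → S_GL → S_CPL → S_TRU := by
  intro hGA hGF hGD hGL hCPL s A hs hA
  obtain ⟨CA, hCA, ga1, ga2, ga4⟩ := hGA s hs
  obtain ⟨CF, hCF, gf1, gf2⟩ := hGF s hs
  obtain ⟨CD, hCD, gd⟩ := hGD s hs
  obtain ⟨cL, hcL, gl⟩ := hGL s A hs hA
  obtain ⟨w₀, hw₀, hcpl⟩ := hCPL s hs
  obtain ⟨Cw, hCw⟩ : ∃ Cw, Cw = 18 * s + (A + 4) + w₀ := ⟨_, rfl⟩
  obtain ⟨C, hC⟩ : ∃ C, C = 2 * CA + (CF + 1) + 2 * CD + Cw := ⟨_, rfl⟩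
  have hCw0 : 0 < Cw := by rw [hCw]; positivity
  have hC1 : 1 ≤ C := by rw [hC]; linarith
  have hc0 : 0 < cL / (CF + 1) ^ 2 := by positivity
  have hcc : cL / (CF + 1) ^ 2 ≤ cL := by
    apply div_le_self hcL.le
    nlinarith
  refine ⟨C, cL / (CF + 1) ^ 2, hC1, hc0, fun y₀ hy hy1 => ?_⟩
  obtain ⟨w, hw⟩ : ∃ w, w = Cw * y₀ ^ (-(1 / 32) : ℝ) := ⟨_, rfl⟩
  have hp1 : 1 ≤ y₀ ^ (-(1 / 32) : ℝ) :=
    Real.one_le_rpow_of_pos_of_le_one_of_nonpos hy (by linarith) (by norm_num)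
  have hCww : Cw ≤ w := by
    rw [hw]
    exact le_mul_of_one_le_right hCw0.le hp1
  have hw0 : w₀ ≤ w := by
    have : w₀ ≤ Cw := by rw [hCw]; linarith
    linarith
  have hwA : A + 4 ≤ w := by
    have : A + 4 ≤ Cw := by rw [hCw]; linarith
    linarith
  obtain ⟨X, X', hX, hvr, hsupp, hlow, hup, hcd, hdif⟩ := hcpl w hw0
  have heps : 8 * Real.exp (-(w ^ 2 / (2 * s ^ 2))) ≤ (y₀ ^ 5) ^ 2 := by
    rw [hw]
    exact window hs (by rw [hCw]; linarith) hy hy1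
  obtain ⟨ε, hε⟩ : ∃ ε, ε = 4 * Real.exp (-(w ^ 2 / (2 * s ^ 2))) := ⟨_, rfl⟩
  have hε0 : 0 ≤ ε := by rw [hε]; positivity
  have hε2 : ε ≤ y₀ ^ 2 := by
    have h1 : (y₀ ^ 5) ^ 2 ≤ y₀ ^ 2 := by
      rw [← pow_mul]
      exact pow_le_pow_of_le_one hy.le (by linarith) (by norm_num)
    rw [hε]
    linarith [Real.exp_pos (-(w ^ 2 / (2 * s ^ 2)))]
  rw [← hε] at hdif
  obtain ⟨μ, hμ⟩ : ∃ μ : Measure ℝ, μ = qlaw X' := ⟨_, rfl⟩
  have hprob : IsProbabilityMeasure μ := by rw [hμ]; infer_instance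
  have hup2 : μ ≤ (2 : ℝ≥0∞) • gs s := by
    rw [hμ]
    refine hup.trans ?_
    gcongr
    exact Measure.restrict_le_self
  rw [← hμ] at hsupp hlow hup hdif
  -- the transform
  have tr2 : ∀ ζ ζ' : ℂ, y₀ ≤ ζ.im → y₀ ≤ ζ'.im →
      ‖(∫ t, 1 / (((t : ℂ) - ζ) * ((t : ℂ) - ζ')) ∂μ) - ∫ t, 1 / (((t : ℂ) - ζ) * ((t : ℂ) - ζ')) ∂(gs s)‖ ≤ 1 := by
    intro ζ ζ' h h'
    have h1 := hdif (fun t => (y₀ : ℂ) ^ 2 * (1 / (((t : ℂ) - ζ) * ((t : ℂ) - ζ'))))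
      (measurable_const.mul (measurable_const.div ((meas ζ).mul (meas ζ')))) (fun t => by
        have e1 := inv_bd hy h t
        have e2 := inv_bd hy h' t
        have e3 : 0 ≤ 1 / ‖(t : ℂ) - ζ'‖ := by positivity
        rw [norm_mul, norm_pow, norm_div, norm_one, norm_mul, Complex.norm_real, Real.norm_eq_abs, abs_of_pos hy]
        calc y₀ ^ 2 * (1 / (‖(t : ℂ) - ζ‖ * ‖(t : ℂ) - ζ'‖))
            = y₀ ^ 2 * ((1 / ‖(t : ℂ) - ζ‖) * (1 / ‖(t : ℂ) - ζ'‖)) := by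
              rw [one_div_mul_one_div]
          _ ≤ y₀ ^ 2 * ((1 / y₀) * (1 / y₀)) := by
              apply mul_le_mul_of_nonneg_left _ (by positivity)
              exact mul_le_mul e1 e2 e3 (by positivity)
          _ = 1 := by
              field_simp)
    rw [integral_const_mul, integral_const_mul, ← mul_sub, norm_mul, norm_pow, Complex.norm_real,
      Real.norm_eq_abs, abs_of_pos hy] at h1
    have h2 : y₀ ^ 2 * ‖(∫ t, 1 / (((t : ℂ) - ζ) * ((t : ℂ) - ζ')) ∂μ) -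
        ∫ t, 1 / (((t : ℂ) - ζ) * ((t : ℂ) - ζ')) ∂(gs s)‖ ≤ y₀ ^ 2 * 1 := by
      rw [mul_one]
      exact h1.trans hε2
    exact le_of_mul_le_mul_left h2 (by positivity)
  have tr1 : ∀ ζ : ℂ, y₀ ≤ ζ.im → ‖hm μ ζ‖ ≤ CF + 1 := by
    intro ζ h
    have h1 := hdif (fun t => (y₀ : ℂ) * (1 / ((t : ℂ) - ζ)))
      (measurable_const.mul (measurable_const.div (meas ζ))) (fun t => by
        have e1 := inv_bd hy h t
        rw [norm_mul, norm_div, norm_one, Complex.norm_real, Real.norm_eq_abs, abs_of_pos hy]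
        calc y₀ * (1 / ‖(t : ℂ) - ζ‖) ≤ y₀ * (1 / y₀) := mul_le_mul_of_nonneg_left e1 hy.le
          _ = 1 := by field_simp)
    rw [integral_const_mul, integral_const_mul, ← mul_sub, norm_mul, Complex.norm_real,
      Real.norm_eq_abs, abs_of_pos hy] at h1
    have h2 : ε ≤ y₀ := hε2.trans (by nlinarith)
    have h3 : y₀ * ‖hm μ ζ - hm (gs s) ζ‖ ≤ y₀ * 1 := by
      rw [mul_one]
      exact h1.trans h2
    have h4 := le_of_mul_le_mul_left h3 hy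
    have h5 := (gf1 ζ (hy.trans_le h)).2
    calc ‖hm μ ζ‖ = ‖hm (gs s) ζ + (hm μ ζ - hm (gs s) ζ)‖ := by congr 1; ring
      _ ≤ ‖hm (gs s) ζ‖ + ‖hm μ ζ - hm (gs s) ζ‖ := norm_add_le _ _
      _ ≤ CF + 1 := add_le_add h5 h4
  have a1 : ∀ ζ : ℂ, 0 < ζ.im → ∫ t, 1 / ‖(t : ℂ) - ζ‖ ^ 2 ∂μ ≤ 2 * CA / ζ.im := by
    intro ζ h
    have h1 := upper hup2 (f := fun t : ℝ => 1 / ‖(t : ℂ) - ζ‖ ^ 2) (fun t => by positivity) (int_sq h)
    have h2 := ga1 ζ h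
    calc ∫ t, 1 / ‖(t : ℂ) - ζ‖ ^ 2 ∂μ ≤ 2 * (CA / ζ.im) := by linarith
      _ = 2 * CA / ζ.im := by ring
  have hUL : UL μ w A C (cL / (CF + 1) ^ 2) y₀ := by
    refine ⟨hA, by linarith, hC1, hc0, hy, hsupp, ?_, ?_, ?_, ?_, ?_, ?_, ?_, ?_⟩
    · intro ζ h
      refine (a1 ζ h).trans ?_
      apply div_le_div_of_nonneg_right _ h.le
      rw [hC]
      linarith
    · intro ζ y h0 h2 h3
      have h1 := upper hup2 (f := fun t : ℝ => 1 / ‖(t : ℂ) - ζ‖) (fun t => by positivity)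
        (int_one (h0.trans_le h3))
      have h4 := ga2 ζ y h0 h2 h3
      have h5 : 0 ≤ y ^ (-(1 / 16) : ℝ) := by positivity
      calc ∫ t, 1 / ‖(t : ℂ) - ζ‖ ∂μ ≤ (2 * CA) * y ^ (-(1 / 16) : ℝ) := by linarith
        _ ≤ C * y ^ (-(1 / 16) : ℝ) := by
            apply mul_le_mul_of_nonneg_right _ h5
            rw [hC]
            linarith
    · intro ζ h
      have h1 := tr2 ζ ζ h h
      have h2 := (gf1 ζ (hy.trans_le h)).1
      have e : ∀ ρ : Measure ℝ, ∫ t, 1 / ((t : ℂ) - ζ) ^ 2 ∂ρ = ∫ t, 1 / (((t : ℂ) - ζ) * ((t : ℂ) - ζ)) ∂ρ := by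
        intro ρ
        congr 1
        funext t
        rw [sq]
      rw [e] at h2 ⊢
      calc ‖∫ t, 1 / (((t : ℂ) - ζ) * ((t : ℂ) - ζ)) ∂μ‖
          = ‖(∫ t, 1 / (((t : ℂ) - ζ) * ((t : ℂ) - ζ)) ∂(gs s)) +
            ((∫ t, 1 / (((t : ℂ) - ζ) * ((t : ℂ) - ζ)) ∂μ) -
              ∫ t, 1 / (((t : ℂ) - ζ) * ((t : ℂ) - ζ)) ∂(gs s))‖ := by congr 1; ring
        _ ≤ CF + 1 := (norm_add_le _ _).trans (add_le_add h2 h1)
        _ ≤ C := by rw [hC]; linarith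
    · intro ζ h
      have h1 := upper hup2 (f := fun t : ℝ => (1 / ‖(t : ℂ) - ζ‖) ^ (1 / 2 : ℝ)) (fun t => by positivity)
        (int_half h)
      have h2 := ga4 ζ h
      calc ∫ t, (1 / ‖(t : ℂ) - ζ‖) ^ (1 / 2 : ℝ) ∂μ ≤ 2 * CA := by linarith
        _ ≤ C := by rw [hC]; linarith
    · intro ζ ζ' y h0 h1 h2
      have h3 : 0 < ζ.im := h0.trans_le h1
      have h4 : 0 < ζ'.im := h0.trans_le h2
      rw [hm_sub h3 h4, norm_mul, mul_comm]
      apply mul_le_mul_of_nonneg_right _ (norm_nonneg _)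
      have h5 : ‖∫ t, 1 / (((t : ℂ) - ζ) * ((t : ℂ) - ζ')) ∂μ‖ ≤
          ∫ t, (1 / 2 * (1 / ‖(t : ℂ) - ζ‖ ^ 2) + 1 / 2 * (1 / ‖(t : ℂ) - ζ'‖ ^ 2)) ∂μ := by
        apply norm_integral_le_of_norm_le (((int_sq h3).const_mul _).add ((int_sq h4).const_mul _))
        apply ae_of_all
        intro t
        rw [norm_div, norm_one, norm_mul, ← one_div_mul_one_div]
        have e1 : 1 / ‖(t : ℂ) - ζ‖ ^ 2 = (1 / ‖(t : ℂ) - ζ‖) ^ 2 := by rw [div_pow, one_pow]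
        have e2 : 1 / ‖(t : ℂ) - ζ'‖ ^ 2 = (1 / ‖(t : ℂ) - ζ'‖) ^ 2 := by rw [div_pow, one_pow]
        simp only [Pi.add_apply]
        rw [e1, e2]
        nlinarith [sq_nonneg (1 / ‖(t : ℂ) - ζ‖ - 1 / ‖(t : ℂ) - ζ'‖)]
      rw [integral_add ((int_sq h3).const_mul _) ((int_sq h4).const_mul _), integral_const_mul,
        integral_const_mul] at h5
      have h6 := a1 ζ h3
      have h7 := a1 ζ' h4
      have h8 : 2 * CA / ζ.im ≤ 2 * CA / y := div_le_div_of_nonneg_left (by linarith) h0 h1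
      have h9 : 2 * CA / ζ'.im ≤ 2 * CA / y := div_le_div_of_nonneg_left (by linarith) h0 h2
      have h10 : 2 * CA / y ≤ C / y := by
        apply div_le_div_of_nonneg_right _ h0.le
        rw [hC]
        linarith
      linarith
    · intro κ α β c hne
      have h2w : 2 ≤ w := by linarith
      have h1 := gd w h2w κ α β c hne
      have i1 : Integrable (fun t : ℝ => ‖c / (α * (t : ℂ) + β)‖ ^ (1 / 2 : ℝ)) ((gs s).restrict (Set.Icc (-w) w)) :=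
        (contf hne).integrableOn_Icc
      have i2 : Integrable (fun t : ℝ => ‖(t : ℂ) - κ‖ ^ (1 / 2 : ℝ) * ‖c / (α * (t : ℂ) + β)‖ ^ (1 / 2 : ℝ))
          ((gs s).restrict (Set.Icc (-w) w)) :=
        ((contk κ w).mul (contf hne)).integrableOn_Icc
      have h2 := upper hup (f := fun t : ℝ => ‖c / (α * (t : ℂ) + β)‖ ^ (1 / 2 : ℝ)) (fun t => by positivity) i1
      have i3 : Integrable (fun t : ℝ => ‖(t : ℂ) - κ‖ ^ (1 / 2 : ℝ) * ‖c / (α * (t : ℂ) + β)‖ ^ (1 / 2 : ℝ)) μ :=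
        (i2.smul_measure (c := (2 : ℝ≥0∞)) (by simp)).mono_measure hup
      have h3 := integral_mono_measure hlow (ae_of_all _ (fun t => by positivity)) i3
      have h4 : 0 ≤ ∫ t, ‖(t : ℂ) - κ‖ ^ (1 / 2 : ℝ) * ‖c / (α * (t : ℂ) + β)‖ ^ (1 / 2 : ℝ) ∂μ :=
        integral_nonneg (fun t => by positivity)
      have h5 : (2 * CD) * ∫ t, ‖(t : ℂ) - κ‖ ^ (1 / 2 : ℝ) * ‖c / (α * (t : ℂ) + β)‖ ^ (1 / 2 : ℝ) ∂μ ≤
          C * ∫ t, ‖(t : ℂ) - κ‖ ^ (1 / 2 : ℝ) * ‖c / (α * (t : ℂ) + β)‖ ^ (1 / 2 : ℝ) ∂μ := by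
        apply mul_le_mul_of_nonneg_right _ h4
        rw [hC]
        linarith
      have h6 := mul_le_mul_of_nonneg_left h3 (by linarith : (0 : ℝ) ≤ 2 * CD)
      refine le_trans ?_ h5
      refine le_trans ?_ h6
      refine h2.trans ?_
      rw [mul_assoc]
      exact mul_le_mul_of_nonneg_left h1 (by norm_num)
    · intro ζ h1 h2 h3
      have h4 := gl μ w hwA hsupp hlow ζ h1 (hy.trans_le h2) h3
      have h5 := tr1 ζ h2
      refine ⟨h5.trans (by rw [hC]; linarith), hcc.trans h4.1, ?_⟩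
      have h6 : 0 < ‖hm μ ζ‖ := by
        rw [norm_pos_iff]
        intro h0
        have := h4.1
        rw [h0, Complex.zero_im] at this
        linarith
      have h7 : ‖hm μ ζ‖ ^ 2 ≤ (CF + 1) ^ 2 := pow_le_pow_left₀ h6.le h5 2
      have h8 : (1 / hm μ ζ + ζ).im ≤ -cL / ‖hm μ ζ‖ ^ 2 := by
        rw [le_div_iff₀ (by positivity)]
        exact h4.2
      refine h8.trans ?_
      rw [neg_div]
      exact neg_le_neg (div_le_div_of_nonneg_left hcL.le (by positivity) h7)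
    · intro ζ ζ' h h'
      have h3 : 0 < ζ.im := hy.trans_le h
      have h4 : 0 < ζ'.im := hy.trans_le h'
      have h5 := gf2 ζ ζ' h3 h4
      have h6 := tr2 ζ ζ' h h'
      have h7 : hm μ ζ - hm μ ζ' = (hm (gs s) ζ - hm (gs s) ζ') + (ζ - ζ') *
          ((∫ t, 1 / (((t : ℂ) - ζ) * ((t : ℂ) - ζ')) ∂μ) - ∫ t, 1 / (((t : ℂ) - ζ) * ((t : ℂ) - ζ')) ∂(gs s)) := by
        rw [hm_sub h3 h4, hm_sub h3 h4]
        ring
      rw [h7]
      refine (norm_add_le _ _).trans ?_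
      rw [norm_mul]
      have h8 := mul_le_mul_of_nonneg_left h6 (norm_nonneg (ζ - ζ'))
      calc ‖hm (gs s) ζ - hm (gs s) ζ'‖ + ‖ζ - ζ'‖ *
            ‖(∫ t, 1 / (((t : ℂ) - ζ) * ((t : ℂ) - ζ')) ∂μ) - ∫ t, 1 / (((t : ℂ) - ζ) * ((t : ℂ) - ζ')) ∂(gs s)‖
          ≤ CF * ‖ζ - ζ'‖ + ‖ζ - ζ'‖ * 1 := add_le_add h5 h8
        _ = (CF + 1) * ‖ζ - ζ'‖ := by ring
        _ ≤ C * ‖ζ - ζ'‖ := by
            apply mul_le_mul_of_nonneg_right _ (norm_nonneg _)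
            rw [hC]
            linarith
  refine ⟨w, X, X', hX, hvr, by rw [← hμ]; exact hUL, hcd.trans heps, ?_⟩
  rw [hw]
  apply mul_le_mul_of_nonneg_right _ (by positivity)
  rw [hC]
  linarith

end Pool.Agent.N289.SN.Tru
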